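import Pool.Agent.LibGM16.Main

set_option autoImplicit false

open Complex Filter Topology Matrix
open scoped ComplexOrder

namespace Pool.Agent.Results.MP_6f982c_gt.SharpSize

open GM16

/-- `N_{h_t,t}(ν_t) - N_{h_∞,t}(ν_∞)`, for the tangent vector `(η, ψ)`. -/
noncomputable def diffN (E : ParHiggs) (η ψ : ℂ → Mat) (h ν : ℝ → ℂ → Mat) (h' ν' : ℂ → Mat)
    (t : ℝ) : ℝ :=
  E.NN t (h t) η ψ (ν t) - E.NN t h' η ψ ν'

/-- The four-punctured sphere, all punctures strongly parabolic: for all small `γ > 0` the explicit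
Higgs bundle `EX γ` and its tangent vector `(0, φ)` satisfy, with `M = 2`,
`c₁ t^{3/2} e^{-2Mt} ≤ -(N_{h_t,t}(ν_t) - N_{h_∞,t}(ν_∞)) ≤ c₂ t^{3/2} e^{-2Mt}` for large `t`; in
particular the difference is not `O(e^{-2Mt})`. -/
theorem result : ∃ γ₀ : ℝ, 0 < γ₀ ∧ ∀ γ : ℝ, 0 < γ → γ ≤ γ₀ →
    -- a stable strongly parabolic Higgs bundle in the regular locus, and the tangent vector `(0, φ)`
    (EX γ).Valid ∧ (EX γ).Regular ∧ (¬ ∃ ℓ, (EX γ).InvariantLine ℓ) ∧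
    (∀ z ∈ (EX γ).U, ((EX γ).A z).det ≠ 0) ∧
    (EX γ).Tangent (fun _ => 0) (EX γ).A ∧
    -- `M = 2`
    PathConnectedSpace (EX γ).Sig ∧ IsLeast (lengths (EX γ)) 2 ∧
    -- the limiting metric `h_∞` and `ν_∞ = 0`
    (∀ z ∈ (EX γ).U, (hinf z).PosDef ∧ (hinf z).det = 1 ∧
      mdzb (fun w => (hinf w)⁻¹ * mdz hinf w) z = 0 ∧
      (EX γ).A z * hadj (hinf z) ((EX γ).A z) - hadj (hinf z) ((EX γ).A z) * (EX γ).A z = 0) ∧
    (EX γ).GaugeInf hinf (fun _ => 0) (EX γ).A (fun _ => 0) ∧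
    (∀ ν, (EX γ).GaugeInf hinf (fun _ => 0) (EX γ).A ν → ∀ z ∈ (EX γ).U, ν z = 0) ∧
    (∀ t : ℝ, (EX γ).NN t hinf (fun _ => 0) (EX γ).A (fun _ => 0) = 16 * t ^ 2) ∧
    -- the harmonic metrics `h_t` and the `ν_t`: existence, uniqueness, limits
    ∃ h ν : ℝ → ℂ → Mat,
      (∀ t, 1 ≤ t → (EX γ).Harmonic t (h t) ∧
        ∀ k, (EX γ).Harmonic t k → ∀ z ∈ (EX γ).U, k z = h t z) ∧
      (∀ t, 1 ≤ t → (EX γ).Gauge t (h t) (fun _ => 0) (EX γ).A (ν t) ∧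
        ∀ ν', (EX γ).Gauge t (h t) (fun _ => 0) (EX γ).A ν' → ∀ z ∈ (EX γ).U, ν' z = ν t z) ∧
      (∀ z ∈ (EX γ).U, Tendsto (fun t => h t z) atTop (𝓝 (hinf z)) ∧
        Tendsto (fun t => ν t z) atTop (𝓝 0)) ∧
      -- the two sided bound
      (∃ c₁ c₂ t₁ : ℝ, 0 < c₁ ∧ 0 < c₂ ∧ ∀ t, t₁ ≤ t →
        c₁ * (t ^ (3 / 2 : ℝ) * Real.exp (-(2 * 2 * t))) ≤
          -diffN (EX γ) (fun _ => 0) (EX γ).A h ν hinf (fun _ => 0) t ∧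
        -diffN (EX γ) (fun _ => 0) (EX γ).A h ν hinf (fun _ => 0) t ≤
          c₂ * (t ^ (3 / 2 : ℝ) * Real.exp (-(2 * 2 * t)))) ∧
      ¬ (diffN (EX γ) (fun _ => 0) (EX γ).A h ν hinf (fun _ => 0))
        =O[atTop] (fun t : ℝ => Real.exp (-(2 * 2 * t))) := by
  obtain ⟨γ₀, h0, hm⟩ := main
  refine ⟨γ₀, h0, fun γ hγ hγ0 => ?_⟩
  obtain ⟨a1, a2, a3, a4, a5, a6, a7, a8, a9, a10, a11, h, ν, b1, b2, b3, c₁, c₂, t₁, hc1, hc2,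
    hb⟩ := hm γ hγ hγ0
  refine ⟨a1, a2, a3, a4, a5, a6, a7, a8, a9, a10, a11, h, ν, b1, b2, b3,
    ⟨c₁, c₂, t₁, hc1, hc2, hb⟩, ?_⟩
  intro hO
  obtain ⟨C, hC⟩ := hO.bound
  have hex : ∀ᶠ t : ℝ in atTop, C < c₁ * t := by
    filter_upwards [eventually_gt_atTop (C / c₁)] with t ht
    rw [div_lt_iff₀ hc1] at ht
    linarith
  obtain ⟨t, h1, h2, h3, h4⟩ := (hC.and (hex.and ((eventually_ge_atTop t₁).and
    (eventually_ge_atTop 1)))).exists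
  have h5 := (hb t h3).1
  have hexp := Real.exp_pos (-(2 * 2 * t))
  rw [Real.norm_eq_abs, Real.norm_of_nonneg hexp.le] at h1
  have h6 : t ≤ t ^ (3 / 2 : ℝ) := by
    calc t = t ^ (1 : ℝ) := (Real.rpow_one t).symm
      _ ≤ t ^ (3 / 2 : ℝ) := Real.rpow_le_rpow_of_exponent_le h4 (by norm_num)
  have h7 : c₁ * (t * Real.exp (-(2 * 2 * t))) ≤ c₁ * (t ^ (3 / 2 : ℝ) * Real.exp (-(2 * 2 * t))) :=
    mul_le_mul_of_nonneg_left (mul_le_mul_of_nonneg_right h6 hexp.le) hc1.le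
  have h8 := neg_le_abs (diffN (EX γ) (fun _ => 0) (EX γ).A h ν hinf (fun _ => 0) t)
  have h9 : c₁ * (t * Real.exp (-(2 * 2 * t))) ≤ C * Real.exp (-(2 * 2 * t)) :=
    h7.trans (h5.trans (h8.trans h1))
  have h10 : C * Real.exp (-(2 * 2 * t)) < c₁ * t * Real.exp (-(2 * 2 * t)) :=
    mul_lt_mul_of_pos_right h2 hexp
  linarith

end Pool.Agent.Results.MP_6f982c_gt.SharpSize
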